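import Pool.Agent.H7.HZ.Stmts

/-!
# Row KUB of the board `hz`: the number of triangles of a block
-/

set_option autoImplicit false

open Finset

namespace Pool.HZ7

open Pool.Agent.H23.KT Pool.Agent.H46.KW Pool.KQ Pool.GT7 Pool.GU7

/-- The number of missing pairs between two sets is symmetric. -/
lemma KUB_sym {V : Type} (G : SimpleGraph V) (X Y : Finset V) :
    ∑ u ∈ X, (non G Y u).card = ∑ u ∈ Y, (non G X u).card := by
  classical
  have h1 : ∀ u, (non G Y u).card = ∑ y ∈ Y, (if ¬ G.Adj u y then 1 else 0) := by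
    intro u
    unfold non
    rw [Finset.card_filter]
  have h2 : ∀ u, (non G X u).card = ∑ y ∈ X, (if ¬ G.Adj u y then 1 else 0) := by
    intro u
    unfold non
    rw [Finset.card_filter]
  rw [Finset.sum_congr rfl (fun u _ => h1 u), Finset.sum_congr rfl (fun u _ => h2 u),
    Finset.sum_comm]
  refine Finset.sum_congr rfl (fun y _ => Finset.sum_congr rfl (fun x _ => ?_))
  rw [G.adj_comm]

/-- Symmetrisation of a double sum over different indices. -/
lemma KUB_dbl {b : ℕ} (m : Fin b → Fin b → ℝ) (σ : Fin b → ℝ) (A : ℝ)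
    (hm : ∀ j k, m j k = m k j) :
    ∑ j, ∑ k ∈ univ.erase j, m j k * (A + σ j + σ k) =
      ∑ j, ∑ k ∈ univ.erase j, m j k * (A + 2 * σ j) := by
  have h0 : ∀ f : Fin b → Fin b → ℝ, ∑ j, ∑ k ∈ univ.erase j, f j k =
      ∑ j, ∑ k ∈ univ.erase j, f k j := by
    intro f
    rw [Finset.sum_comm' (t' := univ) (s' := fun k => univ.erase k)]
    intro x y
    simp only [mem_univ, mem_erase, true_and, and_true, ne_eq]
    constructor
    · intro h h'
      exact h h'.symm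
    · intro h h'
      exact h h'.symm
  have h1 : ∑ j, ∑ k ∈ univ.erase j, m j k * σ k = ∑ j, ∑ k ∈ univ.erase j, m j k * σ j := by
    rw [h0]
    refine Finset.sum_congr rfl (fun j _ => Finset.sum_congr rfl (fun k _ => ?_))
    rw [hm]
  have h2 : ∑ j, ∑ k ∈ univ.erase j, m j k * (A + σ j + σ k) =
      ∑ j, ∑ k ∈ univ.erase j, m j k * (A + σ j) + ∑ j, ∑ k ∈ univ.erase j, m j k * σ k := by
    rw [← Finset.sum_add_distrib]
    refine Finset.sum_congr rfl (fun j _ => ?_)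
    rw [← Finset.sum_add_distrib]
    refine Finset.sum_congr rfl (fun k _ => ?_)
    ring
  rw [h2, h1, ← Finset.sum_add_distrib]
  refine Finset.sum_congr rfl (fun j _ => ?_)
  rw [← Finset.sum_add_distrib]
  refine Finset.sum_congr rfl (fun k _ => ?_)
  ring

theorem KUB_thm (h1 : BLEStmt) : KUBStmt := by
  intro p r a s V _ _ G Q σ hP hn hS hH
  have hb := h1 G (p + 4) Q hP
  -- the double sum
  have hnj : ∀ j, ((Q j).card : ℝ) = a + s - σ j := by
    intro j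
    have := hn j
    have h' : ((Q j).card : ℝ) + σ j = a + s := by exact_mod_cast this
    linarith
  have hSr : ((un Q).card : ℝ) = ((p : ℝ) + 3) * a + r + a + s := by
    rw [hS]; push_cast; ring
  set A : ℝ := ((p : ℝ) + 2) * a + r - s with hA
  have e1 : ∑ j, ∑ k ∈ univ.erase j, ∑ u ∈ Q j, ((non G (Q k) u).card : ℝ) *
        (((un Q).card : ℝ) - (Q j).card - (Q k).card) =
      ∑ j, ∑ k ∈ univ.erase j, (∑ u ∈ Q j, ((non G (Q k) u).card : ℝ)) *
        (A + (σ j : ℝ) + (σ k : ℝ)) := by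
    refine Finset.sum_congr rfl (fun j _ => Finset.sum_congr rfl (fun k _ => ?_))
    rw [Finset.sum_mul]
    refine Finset.sum_congr rfl (fun u _ => ?_)
    rw [hSr, hnj j, hnj k, hA]
    ring
  have e2 := KUB_dbl (fun j k => ∑ u ∈ Q j, ((non G (Q k) u).card : ℝ)) (fun j => (σ j : ℝ)) A
    (by
      intro j k
      have := KUB_sym G (Q j) (Q k)
      show ∑ u ∈ Q j, ((non G (Q k) u).card : ℝ) = ∑ u ∈ Q k, ((non G (Q j) u).card : ℝ)
      exact_mod_cast this)
  have e3 : ∑ j, ∑ k ∈ univ.erase j, (∑ u ∈ Q j, ((non G (Q k) u).card : ℝ)) *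
        (A + 2 * (σ j : ℝ)) =
      ∑ j, ∑ u ∈ Q j, ((σ j : ℝ) + dl G p r a (un Q) u) * (A + 2 * (σ j : ℝ)) := by
    refine Finset.sum_congr rfl (fun j _ => ?_)
    rw [← Finset.sum_mul, Finset.sum_comm, ← Finset.sum_mul]
    congr 1
    refine Finset.sum_congr rfl (fun u hu => ?_)
    have := hH j u hu
    exact_mod_cast this
  have e4 : ∑ j, ∑ u ∈ Q j,
        ((∑ k ∈ univ.erase j, (non G (Q k) u).card : ℕ) : ℝ) *
        (((∑ k ∈ univ.erase j, (non G (Q k) u).card : ℕ) : ℝ) - 1) =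
      ∑ j, ∑ u ∈ Q j, ((σ j : ℝ) + dl G p r a (un Q) u) *
        ((σ j : ℝ) + dl G p r a (un Q) u - 1) := by
    refine Finset.sum_congr rfl (fun j _ => Finset.sum_congr rfl (fun u hu => ?_))
    rw [hH j u hu]
    push_cast
    ring
  have hun : ∀ f : V → ℝ, ∑ u ∈ un Q, f u = ∑ j, ∑ u ∈ Q j, f u := by
    intro f
    unfold un
    rw [Finset.sum_biUnion]
    intro j _ k _ hjk
    exact hP.dis j k hjk
  have e5 : ∑ j, ∑ u ∈ Q j, ((σ j : ℝ) + dl G p r a (un Q) u) *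
        ((σ j : ℝ) + dl G p r a (un Q) u - 1) -
      ∑ j, ∑ u ∈ Q j, ((σ j : ℝ) + dl G p r a (un Q) u) * (A + 2 * (σ j : ℝ)) =
      - A * ∑ j, ((Q j).card : ℝ) * σ j - ∑ j, ((Q j).card : ℝ) * σ j * (σ j + 1)
      - A * ∑ j, ∑ u ∈ Q j, (dl G p r a (un Q) u : ℝ) +
      ∑ j, ∑ u ∈ Q j, (dl G p r a (un Q) u : ℝ) * ((dl G p r a (un Q) u : ℝ) - 1) := by
    rw [Finset.mul_sum, Finset.mul_sum, ← Finset.sum_sub_distrib, ← Finset.sum_sub_distrib,
      ← Finset.sum_sub_distrib, ← Finset.sum_add_distrib]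
    refine Finset.sum_congr rfl (fun j _ => ?_)
    have c1 : ∀ c : ℝ, ((Q j).card : ℝ) * c = ∑ u ∈ Q j, c := by
      intro c
      rw [Finset.sum_const, nsmul_eq_mul]
    have c2 : -A * (((Q j).card : ℝ) * (σ j : ℝ)) - ((Q j).card : ℝ) * (σ j : ℝ) * ((σ j : ℝ) + 1)
        = ∑ u ∈ Q j, (-A * (σ j : ℝ) - (σ j : ℝ) * ((σ j : ℝ) + 1)) := by
      rw [← c1]; ring
    rw [c2, Finset.mul_sum, ← Finset.sum_sub_distrib, ← Finset.sum_sub_distrib,
      ← Finset.sum_add_distrib]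
    refine Finset.sum_congr rfl (fun u _ => ?_)
    ring
  have e6 : ∑ u ∈ un Q, ((dl G p r a (un Q) u : ℝ) * (dl G p r a (un Q) u - 1)) / 2 =
      1 / 2 * ∑ j, ∑ u ∈ Q j, (dl G p r a (un Q) u : ℝ) * ((dl G p r a (un Q) u : ℝ) - 1) := by
    rw [hun, Finset.mul_sum]
    refine Finset.sum_congr rfl (fun j _ => ?_)
    rw [Finset.mul_sum]
    refine Finset.sum_congr rfl (fun u _ => ?_)
    ring
  rw [e1, e2] at hb
  have hb2 : 2 * (kc G (un Q) 3 : ℝ) + ∑ j, ∑ u ∈ Q j,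
      ((σ j : ℝ) + dl G p r a (un Q) u) * (A + 2 * (σ j : ℝ)) ≤
      2 * (es (sz Q) 3 : ℝ) + ∑ j, ∑ u ∈ Q j, ((σ j : ℝ) + dl G p r a (un Q) u) *
        ((σ j : ℝ) + dl G p r a (un Q) u - 1) := by
    rw [← e3, ← e4]
    exact hb
  rw [e6, hun]
  have hes : (es (fun j => (Q j).card) 3 : ℝ) = (es (sz Q) 3 : ℝ) := rfl
  unfold Psi
  rw [hes]
  linarith

end Pool.HZ7
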